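import Mathlib
import Pool.Agent.N446.UniDefs
import Pool.Agent.N446.UniMain

set_option autoImplicit false

namespace Pool.Agent.N446.Withdrawn.GapFour

open Pool.Agent.N446.Uni

/-- There is an integer `n ≥ 2` with `γ_t(X_n) ≤ g(n) - 2`; explicitly, `γ_t(X_30030) ≤ 18` and
`g(30030) = 22`. -/
theorem result :
    (∃ n : ℕ, 2 ≤ n ∧ totalDomNumber (unitaryCayley n) + 2 ≤ jacobsthal n) ∧
    totalDomNumber (unitaryCayley 30030) ≤ 18 ∧ jacobsthal 30030 = 22 := by
  refine ⟨⟨30030, by norm_num, ?_⟩, totalDom_le, jac_eq⟩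
  rw [jac_eq]
  have := totalDom_le
  omega

end Pool.Agent.N446.Withdrawn.GapFour
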